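import Pool.Agent.MP_79523e_co.H63.Odd

namespace Pool.Agent.Results.MP_79523e_co.WarmthIndex

/-- The rooted infinite `d`-branching tree: words over `Fin d`, the root is the empty word,
and `w` is joined to its `d` one-letter extensions. -/
def tree (d : ℕ) : SimpleGraph (List (Fin d)) :=
  SimpleGraph.fromRel (fun u w => ∃ i, w = u ++ [i])

/-- A cold homomorphism from the `d`-branching tree. -/
def Cold {V : Type} {G : SimpleGraph V} {d : ℕ} (φ : tree d →g G) : Prop :=
  ∃ a : V, ∀ k : ℕ, ¬ ∃ ψ : tree d →g G, ψ [] = a ∧ ∀ w, (tree d).dist [] w = k → ψ w = φ w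

/-- The warmth: the least `n + 1` such that some homomorphism from the `n`-branching tree
is cold. -/
noncomputable def warmth {V : Type} (G : SimpleGraph V) : ℕ∞ :=
  ⨅ (n : ℕ) (_ : ∃ φ : tree n →g G, Cold φ), ((n + 1 : ℕ) : ℕ∞)

/-- The space `Hom(K₂, G)`: pairs of points of the simplex on `V` whose supports are
completely joined in `G`. -/
def homK2 {V : Type} [Fintype V] (G : SimpleGraph V) : Set ((V → ℝ) × (V → ℝ)) :=
  {p | p.1 ∈ stdSimplex ℝ V ∧ p.2 ∈ stdSimplex ℝ V ∧ ∀ u v, p.1 u ≠ 0 → p.2 v ≠ 0 → G.Adj u v}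

/-- There is a continuous map from `Hom(K₂, G)` to the unit sphere `S^m` of `ℝ^(m+1)` that
carries the swap action to the antipodal action. -/
def OddMap {V : Type} [Fintype V] (G : SimpleGraph V) (m : ℕ) : Prop :=
  ∃ f : homK2 G → (Fin (m + 1) → ℝ), Continuous f ∧ (∀ p, ∑ i, f p i ^ 2 = 1) ∧
    ∀ p q : homK2 G, q.1 = p.1.swap → f q = - f p

/-- The `ℤ₂`-index of `Hom(K₂, G)`. -/
noncomputable def ind {V : Type} [Fintype V] (G : SimpleGraph V) : ℕ∞ :=
  ⨅ (m : ℕ) (_ : OddMap G m), (m : ℕ∞)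

open Pool.Agent.MP_79523e_co.H63

theorem tree_adj {d : ℕ} (u : List (Fin d)) (i : Fin d) : (tree d).Adj u (u ++ [i]) := by
  unfold tree
  rw [SimpleGraph.fromRel_adj]
  exact ⟨by simp, Or.inl ⟨i, rfl⟩⟩

theorem tree_walk_le {d : ℕ} {u v : List (Fin d)} (p : (tree d).Walk u v) :
    v.length ≤ u.length + p.length := by
  induction p with
  | nil => simp
  | cons h p ih =>
    rw [SimpleGraph.Walk.length_cons]
    have h' := h
    unfold tree at h'
    rw [SimpleGraph.fromRel_adj] at h'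
    rcases h'.2 with ⟨i, rfl⟩ | ⟨i, rfl⟩ <;> simp at ih ⊢ <;> omega

theorem tree_walk {d : ℕ} (w : List (Fin d)) : ∃ p : (tree d).Walk [] w, p.length = w.length := by
  induction w using List.reverseRecOn with
  | nil => exact ⟨SimpleGraph.Walk.nil, rfl⟩
  | append_singleton u i ih =>
    obtain ⟨p, hp⟩ := ih
    exact ⟨p.concat (tree_adj u i), by simp [hp]⟩

theorem tree_dist {d : ℕ} (w : List (Fin d)) : (tree d).dist [] w = w.length := by
  obtain ⟨p, hp⟩ := tree_walk w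
  apply le_antisymm
  · exact hp ▸ SimpleGraph.dist_le p
  · obtain ⟨q, hq⟩ := p.reachable.exists_walk_length_eq_dist
    have := tree_walk_le q
    simp at this
    omega

/-- possible values at the root given the values at depth `k` -/
def R {V : Type} (G : SimpleGraph V) {d : ℕ} : ℕ → (List (Fin d) → V) → Set V
  | 0, φ => {φ []}
  | k + 1, φ => {a | ∀ i : Fin d, ∃ b ∈ R G k (fun w => φ (i :: w)), G.Adj b a}

def IsHom {V : Type} (G : SimpleGraph V) {d : ℕ} (φ : List (Fin d) → V) : Prop :=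
  ∀ u i, G.Adj (φ u) (φ (u ++ [i]))

theorem fill {V : Type} (G : SimpleGraph V) {d : ℕ} : ∀ (k : ℕ) (φ : List (Fin d) → V),
    IsHom G φ → ∀ a ∈ R G k φ, ∃ ψ : List (Fin d) → V, IsHom G ψ ∧ ψ [] = a ∧
      ∀ w, w.length = k → ψ w = φ w := by
  intro k
  induction k with
  | zero =>
    intro φ hφ a ha
    exact ⟨φ, hφ, ha.symm, fun _ _ => rfl⟩
  | succ k ih =>
    intro φ hφ a ha
    choose b hb hadj using ha
    have h := fun i => ih (fun w => φ (i :: w)) (fun u j => hφ (i :: u) j) (b i) (hb i)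
    choose ψ h1 h2 h3 using h
    refine ⟨fun w => match w with
      | [] => a
      | i :: w => ψ i w, ?_, rfl, ?_⟩
    · intro u j
      cases u with
      | nil => exact (h2 j ▸ hadj j).symm
      | cons i u => exact h1 i u j
    · intro w hw
      cases w with
      | nil => simp at hw
      | cons i w => exact h3 i w (by simpa using hw)

def toHom {V : Type} (G : SimpleGraph V) {d : ℕ} (ψ : List (Fin d) → V) (h : IsHom G ψ) :
    tree d →g G where
  toFun := ψ
  map_rel' := by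
    intro u w huw
    unfold tree at huw
    rw [SimpleGraph.fromRel_adj] at huw
    rcases huw.2 with ⟨i, rfl⟩ | ⟨i, rfl⟩
    · exact h u i
    · exact (h w i).symm

theorem not_cold {V : Type} (G : SimpleGraph V) {d : ℕ} (k : ℕ)
    (h : ∀ φ : List (Fin d) → V, IsHom G φ → R G k φ = Set.univ) (φ : tree d →g G) :
    ¬ Cold φ := by
  rintro ⟨a, ha⟩
  have hφ : IsHom G φ := fun u i => φ.map_rel (tree_adj u i)
  obtain ⟨ψ, h1, h2, h3⟩ := fill G k φ hφ a (by rw [h φ hφ]; trivial)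
  exact ha k ⟨toHom G ψ h1, h2, fun w hw => h3 w (by rw [← tree_dist, hw])⟩

def GG : SimpleGraph Vx where
  Adj := Ad
  symm := ⟨fun _ _ => ad_symm⟩
  loopless := ⟨ad_irrefl⟩

theorem R_succ {d : ℕ} (i0 i1 : Fin d) (hi : ∀ i, i = i0 ∨ i = i1) (k : ℕ)
    (φ : List (Fin d) → Vx) :
    R GG (k + 1) φ = J (R GG k (fun w => φ (i0 :: w))) (R GG k (fun w => φ (i1 :: w))) := by
  ext a
  constructor
  · intro h
    exact ⟨h i0, h i1⟩
  · rintro ⟨h0, h1⟩ i
    rcases hi i with rfl | rfl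
    · exact h0
    · exact h1

theorem R_gen {d : ℕ} (i0 i1 : Fin d) (hi : ∀ i, i = i0 ∨ i = i1) :
    ∀ (k : ℕ) (φ : List (Fin d) → Vx), IsHom GG φ → Gen L1 k (R GG (k + 1) φ) := by
  intro k
  induction k with
  | zero =>
    intro φ hφ
    rw [R_succ i0 i1 hi]
    exact step0 ⟨φ [], ⟨_, rfl, ad_symm (hφ [] i0)⟩, ⟨_, rfl, ad_symm (hφ [] i1)⟩⟩
  | succ k ih =>
    intro φ hφ
    exact ⟨_, _, ih _ (fun u j => hφ (i0 :: u) j), ih _ (fun u j => hφ (i1 :: u) j),
      R_succ i0 i1 hi (k + 1) φ⟩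

theorem warm : 4 ≤ warmth GG := by
  obtain ⟨n, hn⟩ := reachL1
  refine le_iInf fun d => le_iInf fun ⟨φ, hφ⟩ => ?_
  by_contra hd
  have hd' : d < 3 := by
    by_contra h
    exact hd (by exact_mod_cast (show 4 ≤ d + 1 by omega))
  interval_cases d
  · exact not_cold GG 1 (fun φ _ => Set.eq_univ_of_forall fun a i => i.elim0) φ hφ
  · exact not_cold GG (n + 1)
      (fun φ h => hn _ (R_gen 0 0 (by decide) n φ h)) φ hφ
  · exact not_cold GG (n + 1)
      (fun φ h => hn _ (R_gen 0 1 (by decide) n φ h)) φ hφ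

noncomputable def vec (p : (Vx → ℝ) × (Vx → ℝ)) : EuclideanSpace ℝ (Fin 2) :=
  WithLp.toLp 2 ![g1 wt p, var wt p - var wt p.swap]

theorem vec_cont : Continuous vec := by
  unfold vec
  refine (PiLp.continuous_toLp 2 _).comp (continuous_pi fun i => ?_)
  fin_cases i
  · exact g1_cont wt
  · exact (var_cont wt).sub ((var_cont wt).comp continuous_swap)

theorem vec_swap (p : (Vx → ℝ) × (Vx → ℝ)) : vec p.swap = - vec p := by
  unfold vec
  ext i
  fin_cases i
  · simpa using g1_swap wt_anti p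
  · simp

theorem vec_ne (p : homK2 GG) : vec p.1 ≠ 0 := by
  intro h
  have h0 : g1 wt p.1 = 0 := by simpa [vec] using congrArg (fun z => z 0) h
  have h1 : var wt p.1 - var wt p.1.swap = 0 := by simpa [vec] using congrArg (fun z => z 1) h
  exact no_zero (A := Ad) wt_anti (fun _ _ => wt_sign) wt_bal p.2.1 p.2.2.1 p.2.2.2 h0 h1

theorem ind_le : ind GG ≤ 1 := by
  refine iInf_le_of_le 1 (iInf_le_of_le ⟨fun p => (‖vec p.1‖⁻¹ • vec p.1).ofLp, ?_, ?_, ?_⟩ le_rfl)
  · have hc : Continuous fun p : homK2 GG => vec p.1 := vec_cont.comp continuous_subtype_val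
    exact (PiLp.continuous_ofLp 2 _).comp
      ((hc.norm.inv₀ fun p => norm_ne_zero_iff.mpr (vec_ne p)).smul hc)
  · intro p
    have h : ‖‖vec p.1‖⁻¹ • vec p.1‖ = 1 := by
      rw [norm_smul, norm_inv, norm_norm, inv_mul_cancel₀ (norm_ne_zero_iff.mpr (vec_ne p))]
    have h2 := EuclideanSpace.real_norm_sq_eq (‖vec p.1‖⁻¹ • vec p.1)
    rw [h] at h2
    rw [← h2]; norm_num
  · intro p q hq
    simp [hq, vec_swap]

theorem result : ∃ (V : Type) (_ : Fintype V) (G : SimpleGraph V),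
    (∃ u v, G.Adj u v) ∧ ind G ≤ 1 ∧ 4 ≤ warmth G ∧ ind G + 2 < warmth G := by
  refine ⟨Vx, inferInstance, GG, ⟨(0, 0, 0, 0), (1, 0, sg 0 1, 0), Or.inl ⟨rfl, by decide, by simp⟩⟩,
    ind_le, warm, ?_⟩
  calc ind GG + 2 ≤ 1 + 2 := by gcongr; exact ind_le
    _ < 4 := by norm_num
    _ ≤ warmth GG := warm

end Pool.Agent.Results.MP_79523e_co.WarmthIndex
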